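import Mathlib

set_option autoImplicit false

open Polynomial

namespace Pool.Agent.V8H47.RC

/-- `(log a_ij)`, `a_ij > 0`, has `ℚ`-linearly independent rows, `ℚ`-linearly independent columns and
determinant zero. -/
def IsCounterexample (a : Fin 2 → Fin 2 → ℝ) : Prop :=
  (∀ i j, 0 < a i j) ∧
  (∀ r t : ℚ, (∀ j, (r : ℝ) * Real.log (a 0 j) + t * Real.log (a 1 j) = 0) → r = 0 ∧ t = 0) ∧
  (∀ r t : ℚ, (∀ i, (r : ℝ) * Real.log (a i 0) + t * Real.log (a i 1) = 0) → r = 0 ∧ t = 0) ∧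
  Real.log (a 0 0) * Real.log (a 1 1) - Real.log (a 0 1) * Real.log (a 1 0) = 0

/-- The number of the different complex zeros of the polynomials `P_ij`, `Q_ij`. -/
noncomputable def width {K : Type} [Field K] [Algebra K ℂ] (P Q : Fin 2 → Fin 2 → K[X]) : ℕ :=
  ((∏ i, ∏ j, P i j * Q i j).rootSet ℂ).ncard

/-- All the rational functions `P_ij / Q_ij` are defined and nonzero at `x`. -/
def Defined (P Q : Fin 2 → Fin 2 → ℝ[X]) (x : ℝ) : Prop :=
  ∀ i j, (P i j).eval x ≠ 0 ∧ (Q i j).eval x ≠ 0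

/-- The determinant of `(log |P_ij(x) / Q_ij(x)|)` is zero. -/
def DetZero (P Q : Fin 2 → Fin 2 → ℝ[X]) (x : ℝ) : Prop :=
  Real.log |(P 0 0).eval x / (Q 0 0).eval x| * Real.log |(P 1 1).eval x / (Q 1 1).eval x| -
    Real.log |(P 0 1).eval x / (Q 0 1).eval x| * Real.log |(P 1 0).eval x / (Q 1 0).eval x| = 0

end Pool.Agent.V8H47.RC
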