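import Pool.Agent.V8H47.RC.C
import Pool.Agent.V8H47.RC.Defs

set_option autoImplicit false

open Polynomial UniqueFactorizationMonoid

namespace Pool.Agent.V8H47.RC

section
open Classical

theorem prod_eq (F A : ℝ[X]) (hA : A ≠ 0) (hF : F ≠ 0) (h : A ∣ F) :
    A = C A.leadingCoeff * ∏ π ∈ (normalizedFactors F).toFinset,
      π ^ (normalizedFactors A).count π := by
  have h1 := leadingCoeff_mul_prod_normalizedFactors A
  rw [Finset.prod_multiset_count_of_subset (normalizedFactors A) (normalizedFactors F).toFinset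
    (by
      intro π hπ
      rw [Multiset.mem_toFinset] at hπ ⊢
      rw [Polynomial.mem_normalizedFactors_iff hA] at hπ
      rw [Polynomial.mem_normalizedFactors_iff hF]
      exact ⟨hπ.1, hπ.2.1, hπ.2.2.trans h⟩)] at h1
  exact h1.symm

theorem good_nf (F : ℝ[X]) (hF : F ≠ 0) : Good (normalizedFactors F).toFinset := by
  intro π hπ
  rw [Multiset.mem_toFinset, Polynomial.mem_normalizedFactors_iff hF] at hπ
  exact ⟨hπ.2.1, hπ.1⟩

theorem pr_dvd (F : ℝ[X]) (hF : F ≠ 0) : Pr (normalizedFactors F).toFinset ∣ F := by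
  have h1 : Pr (normalizedFactors F).toFinset ∣ (normalizedFactors F).prod :=
    Multiset.toFinset_prod_dvd_prod _
  have h2 := h1.mul_left (C F.leadingCoeff)
  rwa [leadingCoeff_mul_prod_normalizedFactors F] at h2

theorem sep {s : Finset ℝ[X]} (hs : Good s) : (Pr s).Separable := by
  unfold Pr
  refine separable_prod' (f := fun x : ℝ[X] => x) ?_ fun π hπ => (hs π hπ).2.separable
  intro π hπ ρ hρ hne
  refine ((hs π hπ).2.coprime_iff_not_dvd).2 fun hd => hne ?_
  exact Polynomial.eq_of_monic_of_associated (hs π hπ).1 (hs ρ hρ).1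
    ((hs π hπ).2.associated_of_dvd (hs ρ hρ).2 hd)

theorem deg_le (F : ℝ[X]) (hF : F ≠ 0) :
    (Pr (normalizedFactors F).toFinset).natDegree ≤ (F.rootSet ℂ).ncard := by
  set p := Pr (normalizedFactors F).toFinset with hp
  have h1 : Fintype.card (p.rootSet ℂ) = p.natDegree :=
    card_rootSet_eq_natDegree (sep (good_nf F hF)) (IsAlgClosed.splits _)
  have h2 : p.rootSet ℂ ⊆ F.rootSet ℂ := by
    intro z hz
    rw [mem_rootSet] at hz ⊢
    refine ⟨hF, ?_⟩
    obtain ⟨q, hq⟩ := pr_dvd F hF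
    rw [hq, map_mul, ← hp, hz.2, zero_mul]
  rw [← h1, ← Nat.card_eq_fintype_card, Nat.card_coe_set_eq]
  exact Set.ncard_le_ncard h2 (Set.toFinite _)

theorem tri (P Q : Fin 2 → Fin 2 → ℝ[X]) (hP : ∀ i j, P i j ≠ 0) (hQ : ∀ i j, Q i j ≠ 0)
    (hne : ∃ i j, ∀ c : ℝ, P i j ≠ C c * Q i j) :
    (∃ r t : ℤ, (r ≠ 0 ∨ t ≠ 0) ∧ ∀ x, Defined P Q x → ∀ j,
      r * Real.log |(P 0 j).eval x / (Q 0 j).eval x| +
      t * Real.log |(P 1 j).eval x / (Q 1 j).eval x| = 0) ∨
    (∃ r t : ℤ, (r ≠ 0 ∨ t ≠ 0) ∧ ∀ x, Defined P Q x → ∀ i,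
      r * Real.log |(P i 0).eval x / (Q i 0).eval x| +
      t * Real.log |(P i 1).eval x / (Q i 1).eval x| = 0) ∨
    ({x : ℝ | Defined P Q x ∧ DetZero P Q x}.Finite ∧
      {x : ℝ | Defined P Q x ∧ DetZero P Q x}.ncard ≤ 88 * width P Q + 5) := by
  set F : ℝ[X] := ∏ i, ∏ j, P i j * Q i j with hF
  have hF0 : F ≠ 0 := Finset.prod_ne_zero_iff.2 fun i _ => Finset.prod_ne_zero_iff.2 fun j _ =>
    mul_ne_zero (hP i j) (hQ i j)
  have hdF : ∀ i j, P i j * Q i j ∣ F := fun i j =>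
    (Finset.dvd_prod_of_mem (fun j => P i j * Q i j) (Finset.mem_univ j)).trans
      (Finset.dvd_prod_of_mem (fun i => ∏ j, P i j * Q i j) (Finset.mem_univ i))
  have hPF : ∀ i j, P i j ∣ F := fun i j => (Dvd.intro _ rfl).trans (hdF i j)
  have hQF : ∀ i j, Q i j ∣ F := fun i j => (Dvd.intro_left _ rfl).trans (hdF i j)
  set s : Finset ℝ[X] := (normalizedFactors F).toFinset with hs
  have hgood : Good s := good_nf F hF0
  set M : ℝ[X] → Fin 2 → Fin 2 → ℤ := fun π i j => if π ∈ s then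
    ((normalizedFactors (P i j)).count π : ℤ) - (normalizedFactors (Q i j)).count π else 0 with hM
  set Cc : Fin 2 → Fin 2 → ℝ := fun i j =>
    Real.log (P i j).leadingCoeff - Real.log (Q i j).leadingCoeff with hCc
  have hlog : ∀ A : ℝ[X], A ≠ 0 → A ∣ F → ∀ x, (Pr s).eval x ≠ 0 → Real.log (A.eval x) =
      Real.log A.leadingCoeff +
        ∑ π ∈ s, ((normalizedFactors A).count π : ℝ) * Real.log (π.eval x) := by
    intro A hA hAF x hx
    have h1 := congrArg (fun p : ℝ[X] => p.eval x) (prod_eq F A hA hF0 hAF)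
    simp only [eval_mul, eval_C, eval_prod, eval_pow] at h1
    rw [h1, Real.log_mul (leadingCoeff_ne_zero.2 hA)
      (Finset.prod_ne_zero_iff.2 fun π hπ => pow_ne_zero _ (eval_pr_ne hx hπ)),
      Real.log_prod (fun π hπ => pow_ne_zero _ (eval_pr_ne hx hπ))]
    simp only [Real.log_pow]
  have hLg : ∀ x, (Pr s).eval x ≠ 0 → ∀ i j,
      Real.log |(P i j).eval x / (Q i j).eval x| = Lg s Cc M x i j := by
    intro x hx i j
    have hPx : F.eval x ≠ 0 ∨ True := Or.inr trivial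
    have hAx : ∀ A : ℝ[X], A ≠ 0 → A ∣ F → A.eval x ≠ 0 := by
      intro A hA hAF
      have h1 := congrArg (fun p : ℝ[X] => p.eval x) (prod_eq F A hA hF0 hAF)
      simp only [eval_mul, eval_C, eval_prod, eval_pow] at h1
      rw [h1]
      exact mul_ne_zero (leadingCoeff_ne_zero.2 hA)
        (Finset.prod_ne_zero_iff.2 fun π hπ => pow_ne_zero _ (eval_pr_ne hx hπ))
    rw [Real.log_abs, Real.log_div (hAx _ (hP i j) (hPF i j)) (hAx _ (hQ i j) (hQF i j)),
      hlog _ (hP i j) (hPF i j) x hx, hlog _ (hQ i j) (hQF i j) x hx]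
    unfold Lg lam
    have h2 : ∑ π ∈ s, (M π i j : ℝ) * Real.log (π.eval x) =
        ∑ π ∈ s, ((normalizedFactors (P i j)).count π : ℝ) * Real.log (π.eval x) -
        ∑ π ∈ s, ((normalizedFactors (Q i j)).count π : ℝ) * Real.log (π.eval x) := by
      rw [← Finset.sum_sub_distrib]
      refine Finset.sum_congr rfl fun π hπ => ?_
      simp only [hM, if_pos hπ]
      push_cast
      ring
    rw [h2]
    simp only [hCc]
    ring
  have hdef : ∀ x, Defined P Q x → (Pr s).eval x ≠ 0 := by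
    intro x hx h0
    obtain ⟨q, hq⟩ := pr_dvd F hF0
    have h1 : F.eval x = 0 := by
      rw [hq, eval_mul]
      change (Pr s).eval x * _ = 0
      rw [h0, zero_mul]
    rw [hF, eval_prod] at h1
    obtain ⟨i, _, h2⟩ := Finset.prod_eq_zero_iff.1 h1
    rw [eval_prod] at h2
    obtain ⟨j, _, h3⟩ := Finset.prod_eq_zero_iff.1 h2
    rw [eval_mul] at h3
    exact mul_ne_zero (hx i j).1 (hx i j).2 h3
  have hMne : ∃ π ∈ s, ∃ i j, M π i j ≠ 0 := by
    obtain ⟨i, j, hij⟩ := hne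
    by_contra hc
    push Not at hc
    have h1 : ∀ π ∈ s, (normalizedFactors (P i j)).count π = (normalizedFactors (Q i j)).count π := by
      intro π hπ
      have h2 := hc π hπ i j
      simp only [hM, if_pos hπ] at h2
      omega
    have h2 : ∏ π ∈ s, π ^ (normalizedFactors (P i j)).count π =
        ∏ π ∈ s, π ^ (normalizedFactors (Q i j)).count π :=
      Finset.prod_congr rfl fun π hπ => by rw [h1 π hπ]
    have h3 := prod_eq F (P i j) (hP i j) hF0 (hPF i j)
    have h4 := prod_eq F (Q i j) (hQ i j) hF0 (hQF i j)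
    change P i j = C (P i j).leadingCoeff * ∏ π ∈ s, π ^ (normalizedFactors (P i j)).count π at h3
    change Q i j = C (Q i j).leadingCoeff * ∏ π ∈ s, π ^ (normalizedFactors (Q i j)).count π at h4
    rw [h2] at h3
    refine hij ((P i j).leadingCoeff / (Q i j).leadingCoeff) ?_
    have h5 : C ((P i j).leadingCoeff / (Q i j).leadingCoeff) * C (Q i j).leadingCoeff =
        C (P i j).leadingCoeff := by
      rw [← C_mul, div_mul_cancel₀ _ (leadingCoeff_ne_zero.2 (hQ i j))]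
    calc P i j = C (P i j).leadingCoeff *
          ∏ π ∈ s, π ^ (normalizedFactors (Q i j)).count π := h3
      _ = C ((P i j).leadingCoeff / (Q i j).leadingCoeff) * (C (Q i j).leadingCoeff *
          ∏ π ∈ s, π ^ (normalizedFactors (Q i j)).count π) := by
          rw [← mul_assoc, h5]
      _ = C ((P i j).leadingCoeff / (Q i j).leadingCoeff) * Q i j := by rw [← h4]
  have hMs : ∀ π ∉ s, ∀ i j, M π i j = 0 := fun π hπ i j => by simp only [hM, if_neg hπ]
  rcases core hgood Cc M hMs hMne with ⟨r, t, hrt, h1⟩ | ⟨r, t, hrt, h1⟩ | ⟨G, hG, h1⟩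
  · refine Or.inl ⟨r, t, hrt, fun x hx j => ?_⟩
    rw [hLg x (hdef x hx) 0 j, hLg x (hdef x hx) 1 j]
    exact h1 x j
  · refine Or.inr (Or.inl ⟨r, t, hrt, fun x hx i => ?_⟩)
    rw [hLg x (hdef x hx) i 0, hLg x (hdef x hx) i 1]
    exact h1 x i
  · have hsub : {x : ℝ | Defined P Q x ∧ DetZero P Q x} ⊆ (↑G : Set ℝ) := by
      rintro x ⟨hx, hx0⟩
      by_contra hxG
      have h2 := h1 x (hdef x hx) hxG
      rw [← hLg x (hdef x hx) 0 0, ← hLg x (hdef x hx) 1 1, ← hLg x (hdef x hx) 0 1,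
        ← hLg x (hdef x hx) 1 0] at h2
      exact h2 hx0
    refine Or.inr (Or.inr ⟨(Finset.finite_toSet G).subset hsub, ?_⟩)
    have h2 := Set.ncard_le_ncard hsub (Finset.finite_toSet G)
    rw [Set.ncard_coe_finset] at h2
    have h3 : (Pr s).natDegree ≤ width P Q := deg_le F hF0
    omega

theorem main (P Q : Fin 2 → Fin 2 → ℝ[X]) (hne : ∃ i j, ∀ c : ℝ, P i j ≠ C c * Q i j) :
    {x : ℝ | IsCounterexample fun i j => |(P i j).eval x / (Q i j).eval x|}.Finite ∧
    {x : ℝ | IsCounterexample fun i j => |(P i j).eval x / (Q i j).eval x|}.ncard ≤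
      88 * width P Q + 5 := by
  set X0 : Set ℝ := {x : ℝ | IsCounterexample fun i j => |(P i j).eval x / (Q i j).eval x|}
    with hX0
  have hpos : ∀ x ∈ X0, Defined P Q x := by
    intro x hx i j
    have h1 := abs_pos.1 (hx.1 i j)
    exact div_ne_zero_iff.1 h1
  by_cases hE : X0 = ∅
  · rw [hE]
    exact ⟨Set.finite_empty, by simp⟩
  obtain ⟨x0, hx0⟩ := Set.nonempty_iff_ne_empty.2 hE
  have hP : ∀ i j, P i j ≠ 0 := fun i j h0 => (hpos x0 hx0 i j).1 (by rw [h0, eval_zero])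
  have hQ : ∀ i j, Q i j ≠ 0 := fun i j h0 => (hpos x0 hx0 i j).2 (by rw [h0, eval_zero])
  rcases tri P Q hP hQ hne with ⟨r, t, hrt, h1⟩ | ⟨r, t, hrt, h1⟩ | ⟨h1, h2⟩
  · exfalso
    have h2 := hx0.2.1 r t (fun j => by exact_mod_cast h1 x0 (hpos x0 hx0) j)
    rcases hrt with h3 | h3
    · exact h3 (by exact_mod_cast h2.1)
    · exact h3 (by exact_mod_cast h2.2)
  · exfalso
    have h2 := hx0.2.2.1 r t (fun i => by exact_mod_cast h1 x0 (hpos x0 hx0) i)
    rcases hrt with h3 | h3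
    · exact h3 (by exact_mod_cast h2.1)
    · exact h3 (by exact_mod_cast h2.2)
  · have hsub : X0 ⊆ {x : ℝ | Defined P Q x ∧ DetZero P Q x} := fun x hx =>
      ⟨hpos x hx, hx.2.2.2⟩
    exact ⟨h1.subset hsub, (Set.ncard_le_ncard hsub h1).trans h2⟩

end

theorem main_rat (P Q : Fin 2 → Fin 2 → ℚ[X]) (hne : ∃ i j, ∀ c : ℚ, P i j ≠ C c * Q i j) :
    {x : ℚ | IsCounterexample fun i j => ((|(P i j).eval x / (Q i j).eval x| : ℚ) : ℝ)}.Finite ∧
    {x : ℚ | IsCounterexample fun i j => ((|(P i j).eval x / (Q i j).eval x| : ℚ) : ℝ)}.ncard ≤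
      88 * width P Q + 5 := by
  set P' : Fin 2 → Fin 2 → ℝ[X] := fun i j => (P i j).map (algebraMap ℚ ℝ) with hP'
  set Q' : Fin 2 → Fin 2 → ℝ[X] := fun i j => (Q i j).map (algebraMap ℚ ℝ) with hQ'
  by_cases hE : {x : ℚ | IsCounterexample
      fun i j => ((|(P i j).eval x / (Q i j).eval x| : ℚ) : ℝ)} = ∅
  · rw [hE]
    exact ⟨Set.finite_empty, by simp⟩
  obtain ⟨x0, hx0⟩ := Set.nonempty_iff_ne_empty.2 hE
  have hQ : ∀ i j, Q i j ≠ 0 := by
    intro i j h0
    have h1 := hx0.1 i j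
    simp [h0] at h1
  have hev : ∀ (A : ℚ[X]) (x : ℚ), (A.map (algebraMap ℚ ℝ)).eval (x : ℝ) = ((A.eval x : ℚ) : ℝ) := by
    intro A x
    rw [eval_map]
    exact eval₂_at_apply (algebraMap ℚ ℝ) x
  have hne' : ∃ i j, ∀ c : ℝ, P' i j ≠ C c * Q' i j := by
    obtain ⟨i, j, hij⟩ := hne
    refine ⟨i, j, fun c hc => ?_⟩
    have h1 : ((P i j).coeff (Q i j).natDegree : ℝ) = c * ((Q i j).leadingCoeff : ℝ) := by
      have h2 := congrArg (fun p : ℝ[X] => p.coeff (Q i j).natDegree) hc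
      simp only [hP', hQ', coeff_map, coeff_C_mul] at h2
      exact h2
    have h3 : ((Q i j).leadingCoeff : ℝ) ≠ 0 := by
      exact_mod_cast leadingCoeff_ne_zero.2 (hQ i j)
    have h4 : c = (((P i j).coeff (Q i j).natDegree / (Q i j).leadingCoeff : ℚ) : ℝ) := by
      push_cast
      rw [h1]
      field_simp
    refine hij ((P i j).coeff (Q i j).natDegree / (Q i j).leadingCoeff) ?_
    apply Polynomial.map_injective (algebraMap ℚ ℝ) (algebraMap ℚ ℝ).injective
    rw [Polynomial.map_mul, map_C]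
    change P' i j = C _ * Q' i j
    rw [hc, h4]
    rfl
  have hw : width P' Q' = width P Q := by
    unfold width
    congr 1
    have h1 : ∏ i, ∏ j, P' i j * Q' i j = (∏ i, ∏ j, P i j * Q i j).map (algebraMap ℚ ℝ) := by
      simp only [hP', hQ', Polynomial.map_prod, Polynomial.map_mul]
    rw [h1]
    classical
    rw [rootSet_def, rootSet_def, aroots_def, aroots_def, Polynomial.map_map]
    rfl
  obtain ⟨h1, h2⟩ := main P' Q' hne'
  have hmaps : Set.MapsTo (fun x : ℚ => (x : ℝ)) {x : ℚ | IsCounterexample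
      fun i j => ((|(P i j).eval x / (Q i j).eval x| : ℚ) : ℝ)}
      {x : ℝ | IsCounterexample fun i j => |(P' i j).eval x / (Q' i j).eval x|} := by
    intro x hx
    change IsCounterexample fun i j => |(P' i j).eval (x : ℝ) / (Q' i j).eval (x : ℝ)|
    have h3 : (fun i j => |(P' i j).eval (x : ℝ) / (Q' i j).eval (x : ℝ)|) =
        fun i j => ((|(P i j).eval x / (Q i j).eval x| : ℚ) : ℝ) := by
      funext i j
      simp only [hP', hQ', hev]
      push_cast
      rfl
    rw [h3]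
    exact hx
  have hinj : Set.InjOn (fun x : ℚ => (x : ℝ)) {x : ℚ | IsCounterexample
      fun i j => ((|(P i j).eval x / (Q i j).eval x| : ℚ) : ℝ)} :=
    fun x _ y _ h => by
      have h' : (x : ℝ) = (y : ℝ) := h
      exact_mod_cast h'
  refine ⟨Set.Finite.of_injOn hmaps hinj h1, ?_⟩
  rw [← hw]
  exact (Set.ncard_le_ncard_of_injOn _ hmaps hinj h1).trans h2

end Pool.Agent.V8H47.RC
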