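import Mathlib

set_option autoImplicit false

open Polynomial

namespace Pool.Agent.V8H47.RC

theorem rolle_fin (S : Finset ℝ) (h g : ℝ → ℝ) (hd : ∀ x ∉ S, HasDerivAt h (g x) x)
    (hg : ∀ x ∉ S, g x ≠ 0) : {x | x ∉ S ∧ h x = 0}.Finite := by
  classical
  refine Set.Finite.of_injOn (f := fun x => S.filter (· < x))
    (t := (↑S.powerset : Set (Finset ℝ))) ?_ ?_ (Finset.finite_toSet _)
  · intro x _
    exact Finset.mem_coe.2 (Finset.mem_powerset.2 (Finset.filter_subset _ _))
  · have key : ∀ x y, x ∉ S → h x = 0 → y ∉ S → h y = 0 →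
        S.filter (· < x) = S.filter (· < y) → ¬ x < y := by
      intro x y hx hx0 hy hy0 he hlt
      have hns : ∀ z ∈ Set.Icc x y, z ∉ S := by
        intro z hz hzS
        have h1 : z ≠ y := fun e => hy (e ▸ hzS)
        have h2 : z < y := lt_of_le_of_ne hz.2 h1
        have h3 : z ∈ S.filter (· < y) := Finset.mem_filter.2 ⟨hzS, h2⟩
        rw [← he] at h3
        exact absurd (Finset.mem_filter.1 h3).2 (not_lt.2 hz.1)
      obtain ⟨z, hz, hz0⟩ := exists_hasDerivAt_eq_zero hlt
        (fun z hz => (hd z (hns z hz)).continuousAt.continuousWithinAt)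
        (hx0.trans hy0.symm) (fun z hz => hd z (hns z (Set.Ioo_subset_Icc_self hz)))
      exact hg z (hns z (Set.Ioo_subset_Icc_self hz)) hz0
    rintro x ⟨hx, hx0⟩ y ⟨hy, hy0⟩ he
    rcases lt_trichotomy x y with h1 | h1 | h1
    · exact absurd h1 (key x y hx hx0 hy hy0 he)
    · exact h1
    · exact absurd h1 (key y x hy hy0 hx hx0 he.symm)

noncomputable def Pr (s : Finset ℝ[X]) : ℝ[X] := ∏ π ∈ s, π

noncomputable def co (s : Finset ℝ[X]) (π : ℝ[X]) : ℝ[X] := by
  classical exact ∏ ρ ∈ s.erase π, ρ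

noncomputable def Sg (s : Finset ℝ[X]) (c : ℝ[X] → ℝ) : ℝ[X] :=
  ∑ π ∈ s, C (c π) * derivative π * co s π

def Good (s : Finset ℝ[X]) : Prop := ∀ π ∈ s, π.Monic ∧ Irreducible π

theorem pr_eq (s : Finset ℝ[X]) {π : ℝ[X]} (hπ : π ∈ s) : Pr s = π * co s π := by
  classical
  unfold Pr co
  exact (Finset.mul_prod_erase s (fun x => x) hπ).symm

theorem not_dvd_co {s : Finset ℝ[X]} (hs : Good s) {π : ℝ[X]} (hπ : π ∈ s) : ¬ π ∣ co s π := by
  classical
  intro h
  have hp := (hs π hπ).2.prime
  unfold co at h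
  obtain ⟨ρ, hρ, hd⟩ := (hp.dvd_finset_prod_iff _).1 h
  have hρ' := Finset.mem_erase.1 hρ
  have ha : Associated π ρ := (hs π hπ).2.associated_of_dvd (hs ρ hρ'.2).2 hd
  exact hρ'.1 (Polynomial.eq_of_monic_of_associated (hs π hπ).1 (hs ρ hρ'.2).1 ha).symm

theorem sg_dvd {s : Finset ℝ[X]} (hs : Good s) (c : ℝ[X] → ℝ) {π : ℝ[X]} (hπ : π ∈ s)
    (h : π ∣ Sg s c) : c π = 0 := by
  classical
  by_contra hc
  have hp := (hs π hπ).2.prime
  have h1 : π ∣ C (c π) * derivative π * co s π := by
    have h2 : Sg s c = C (c π) * derivative π * co s π +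
        ∑ ρ ∈ s.erase π, C (c ρ) * derivative ρ * co s ρ := by
      unfold Sg
      exact (Finset.add_sum_erase s (fun π => C (c π) * derivative π * co s π) hπ).symm
    rw [h2] at h
    refine (dvd_add_left (Finset.dvd_sum fun ρ hρ => ?_)).1 h
    refine Dvd.dvd.mul_left ?_ _
    unfold co
    exact Finset.dvd_prod_of_mem (fun x => x)
      (Finset.mem_erase.2 ⟨(Finset.mem_erase.1 hρ).1.symm, hπ⟩)
  rcases hp.dvd_or_dvd h1 with h3 | h3
  · rcases hp.dvd_or_dvd h3 with h4 | h4
    · exact hp.not_unit (isUnit_of_dvd_unit h4 (isUnit_C.2 (Ne.isUnit hc)))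
    · have h5 : IsCoprime π (derivative π) := (hs π hπ).2.separable
      exact hp.not_unit (h5.isUnit_of_dvd' dvd_rfl h4)
  · exact not_dvd_co hs hπ h3

theorem indep {s : Finset ℝ[X]} (hs : Good s) (c : ℝ[X] → ℝ) (p q : ℝ[X]) (hq : q ≠ 0)
    (h : (derivative p * q - p * derivative q) * Pr s = q ^ 2 * Sg s c) {π : ℝ[X]}
    (hπ : π ∈ s) : c π = 0 := by
  by_contra hc
  have hp := (hs π hπ).2.prime
  have hS : ¬ π ∣ Sg s c := fun hd => hc (sg_dvd hs c hπ hd)
  by_cases hp0 : p = 0
  · subst hp0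
    have h0 : q ^ 2 * Sg s c = 0 := by
      rw [← h]
      simp
    rcases mul_eq_zero.1 h0 with h1 | h1
    · exact hq (pow_eq_zero_iff (two_ne_zero) |>.1 h1)
    · exact hS (h1 ▸ dvd_zero _)
  obtain ⟨a, p1, hp1, hpe⟩ := WfDvdMonoid.max_power_factor hp0 (hs π hπ).2
  obtain ⟨e, q1, hq1, hqe⟩ := WfDvdMonoid.max_power_factor hq (hs π hπ).2
  have hqS : ¬ π ∣ q1 ^ 2 * Sg s c := by
    intro hd
    rcases hp.dvd_or_dvd hd with h1 | h1
    · exact hq1 (hp.dvd_of_dvd_pow h1)
    · exact hS h1
  have hder : ∀ n : ℕ, π * derivative (π ^ n) = C (n : ℝ) * π ^ n * derivative π := by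
    intro n
    rw [derivative_pow]
    rcases n with _ | n
    · simp
    · rw [Nat.add_sub_cancel, pow_succ]
      ring
  set V : ℝ[X] := (C (a : ℝ) - C (e : ℝ)) * derivative π * p1 * q1 +
    π * (derivative p1 * q1 - p1 * derivative q1) with hV
  have hW : π * (derivative p * q - p * derivative q) = π ^ (a + e) * V := by
    rw [hpe, hqe, derivative_mul, derivative_mul]
    have h1 := hder a
    have h2 := hder e
    rw [hV, pow_add]
    linear_combination (π ^ e * q1 * p1) * h1 - (π ^ a * p1 * q1) * h2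
  have hmain : π ^ (a + e) * (V * co s π) = π ^ (2 * e) * (q1 ^ 2 * Sg s c) := by
    rw [pr_eq s hπ] at h
    have h3 : q ^ 2 = π ^ (2 * e) * q1 ^ 2 := by
      rw [hqe]
      ring
    calc π ^ (a + e) * (V * co s π) = (π * (derivative p * q - p * derivative q)) * co s π := by
          rw [hW]
          ring
      _ = (derivative p * q - p * derivative q) * (π * co s π) := by ring
      _ = q ^ 2 * Sg s c := h
      _ = π ^ (2 * e) * (q1 ^ 2 * Sg s c) := by
          rw [h3]
          ring
  have hπ0 : π ≠ 0 := hp.ne_zero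
  rcases lt_trichotomy a e with hae | hae | hae
  · have h4 : V * co s π = π ^ (e - a) * (q1 ^ 2 * Sg s c) := by
      have h5 : π ^ (2 * e) = π ^ (a + e) * π ^ (e - a) := by
        rw [← pow_add]
        congr 1
        omega
      rw [h5, mul_assoc] at hmain
      exact mul_left_cancel₀ (pow_ne_zero _ hπ0) hmain
    have h5 : π ∣ V * co s π := by
      rw [h4]
      exact Dvd.dvd.mul_right (dvd_pow_self _ (by omega)) _
    rcases hp.dvd_or_dvd h5 with h6 | h6
    · have h7 : π ∣ (C (a : ℝ) - C (e : ℝ)) * derivative π * p1 * q1 :=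
        (dvd_add_left (Dvd.intro _ rfl)).1 h6
      rcases hp.dvd_or_dvd h7 with h8 | h8
      · rcases hp.dvd_or_dvd h8 with h9 | h9
        · rcases hp.dvd_or_dvd h9 with h10 | h10
          · rw [← C_sub] at h10
            have hne : ((a : ℝ) - e) ≠ 0 := by
              have : (a : ℝ) < e := by exact_mod_cast hae
              linarith
            exact hp.not_unit (isUnit_of_dvd_unit h10 (isUnit_C.2 (Ne.isUnit hne)))
          · have h5 : IsCoprime π (derivative π) := (hs π hπ).2.separable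
            exact hp.not_unit (h5.isUnit_of_dvd' dvd_rfl h10)
        · exact hp1 h9
      · exact hq1 h8
    · exact not_dvd_co hs hπ h6
  · subst hae
    have h5 : π ^ (2 * a) = π ^ (a + a) := by
      congr 1
      omega
    rw [h5] at hmain
    have h6 := mul_left_cancel₀ (pow_ne_zero _ hπ0) hmain
    apply hqS
    rw [← h6, hV]
    refine Dvd.dvd.mul_right ?_ _
    rw [sub_self, zero_mul, zero_mul, zero_mul, zero_add]
    exact Dvd.intro _ rfl
  · have h4 : π ^ (a - e) * (V * co s π) = q1 ^ 2 * Sg s c := by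
      have h5 : π ^ (a + e) = π ^ (2 * e) * π ^ (a - e) := by
        rw [← pow_add]
        congr 1
        omega
      rw [h5, mul_assoc] at hmain
      exact mul_left_cancel₀ (pow_ne_zero _ hπ0) hmain
    apply hqS
    rw [← h4]
    exact Dvd.dvd.mul_right (dvd_pow_self _ (by omega)) _

theorem coeff_theta (A : ℝ[X]) (m : ℕ) : (X * derivative A).coeff m = m * A.coeff m := by
  rcases m with _ | m
  · simp
  · rw [coeff_X_mul, coeff_derivative]
    push_cast
    ring

theorem natDegree_theta (A : ℝ[X]) : (X * derivative A).natDegree ≤ A.natDegree := by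
  rw [natDegree_le_iff_coeff_eq_zero]
  intro N hN
  rw [coeff_theta, coeff_eq_zero_of_natDegree_lt hN, mul_zero]

theorem wr_deg (A B : ℝ[X]) (hA : A ≠ 0) (hB : B ≠ 0) (h : derivative A * B = A * derivative B) :
    A.natDegree = B.natDegree := by
  have h1 : (X * derivative A) * B = A * (X * derivative B) := by
    linear_combination X * h
  have h2 : ((X * derivative A) * B).coeff (A.natDegree + B.natDegree) =
      (A * (X * derivative B)).coeff (A.natDegree + B.natDegree) := by rw [h1]
  rw [coeff_mul_add_eq_of_natDegree_le (natDegree_theta A) le_rfl,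
    coeff_mul_add_eq_of_natDegree_le le_rfl (natDegree_theta B), coeff_theta, coeff_theta] at h2
  have h3 : A.coeff A.natDegree ≠ 0 := by
    rw [coeff_natDegree]
    exact leadingCoeff_ne_zero.2 hA
  have h4 : B.coeff B.natDegree ≠ 0 := by
    rw [coeff_natDegree]
    exact leadingCoeff_ne_zero.2 hB
  have h5 : ((A.natDegree : ℝ) - B.natDegree) * (A.coeff A.natDegree * B.coeff B.natDegree) = 0 := by
    linear_combination h2
  rcases mul_eq_zero.1 h5 with h6 | h6
  · exact_mod_cast sub_eq_zero.1 h6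
  · exact absurd h6 (mul_ne_zero h3 h4)

theorem wr_prop (A B : ℝ[X]) (hB : B ≠ 0) (h : derivative A * B = A * derivative B) :
    ∃ c : ℝ, A = C c * B := by
  by_cases hA : A = 0
  · exact ⟨0, by simp [hA]⟩
  have hd := wr_deg A B hA hB h
  refine ⟨A.leadingCoeff / B.leadingCoeff, ?_⟩
  set c : ℝ := A.leadingCoeff / B.leadingCoeff with hc
  by_contra hne
  have hne' : A - C c * B ≠ 0 := fun h0 => hne (sub_eq_zero.1 h0)
  have h1 : derivative (A - C c * B) * B = (A - C c * B) * derivative B := by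
    rw [derivative_sub, derivative_C_mul]
    linear_combination h
  have h2 := wr_deg _ B hne' hB h1
  have h3 : (A - C c * B).coeff (A - C c * B).natDegree = 0 := by
    rw [h2, coeff_sub, coeff_C_mul]
    have h4 : A.coeff B.natDegree = A.leadingCoeff := by
      rw [← hd, coeff_natDegree]
    rw [h4, coeff_natDegree, hc, div_mul_cancel₀ _ (leadingCoeff_ne_zero.2 hB), sub_self]
  rw [coeff_natDegree] at h3
  exact hne' (leadingCoeff_eq_zero.1 h3)

end Pool.Agent.V8H47.RC
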