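import Pool.Agent.V8H47.RC.A

set_option autoImplicit false

open Polynomial

namespace Pool.Agent.V8H47.RC

theorem rolle_card (P G : Finset ℝ) (h g : ℝ → ℝ) (hd : ∀ x ∉ P, HasDerivAt h (g x) x)
    (hg : ∀ x ∉ P, x ∉ G → g x ≠ 0) : {x | x ∉ P ∧ h x = 0}.Finite ∧
      {x | x ∉ P ∧ h x = 0}.ncard ≤ P.card + G.card + 1 := by
  classical
  set S : Finset ℝ := P ∪ G with hS
  have key : ∀ x y, x ∉ P → h x = 0 → y ∉ P → h y = 0 →
      (S.filter (· < x)).card = (S.filter (· < y)).card → ¬ x < y := by
    intro x y hx hx0 hy hy0 hc hlt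
    have hsub : S.filter (· < x) ⊆ S.filter (· < y) := by
      intro z hz
      rw [Finset.mem_filter] at hz ⊢
      exact ⟨hz.1, hz.2.trans hlt⟩
    have he : S.filter (· < x) = S.filter (· < y) := Finset.eq_of_subset_of_card_le hsub hc.ge
    have hno : ∀ z ∈ S, x ≤ z → ¬ z < y := by
      intro z hzS hz h2
      have h3 : z ∈ S.filter (· < y) := Finset.mem_filter.2 ⟨hzS, h2⟩
      rw [← he] at h3
      exact absurd (Finset.mem_filter.1 h3).2 (not_lt.2 hz)
    have hns : ∀ z ∈ Set.Icc x y, z ∉ P := by
      intro z hz hzP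
      have h1 : z ≠ y := fun e => hy (e ▸ hzP)
      exact hno z (Finset.mem_union_left _ hzP) hz.1 (lt_of_le_of_ne hz.2 h1)
    obtain ⟨z, hz, hz0⟩ := exists_hasDerivAt_eq_zero hlt
      (fun z hz => (hd z (hns z hz)).continuousAt.continuousWithinAt)
      (hx0.trans hy0.symm) (fun z hz => hd z (hns z (Set.Ioo_subset_Icc_self hz)))
    have hzG : z ∈ G := by
      by_contra hc
      exact hg z (hns z (Set.Ioo_subset_Icc_self hz)) hc hz0
    exact hno z (Finset.mem_union_right _ hzG) hz.1.le hz.2
  have hinj : Set.InjOn (fun x => (S.filter (· < x)).card) {x | x ∉ P ∧ h x = 0} := by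
    rintro x ⟨hx, hx0⟩ y ⟨hy, hy0⟩ he
    rcases lt_trichotomy x y with h1 | h1 | h1
    · exact absurd h1 (key x y hx hx0 hy hy0 he)
    · exact h1
    · exact absurd h1 (key y x hy hy0 hx hx0 he.symm)
  have hmaps : Set.MapsTo (fun x => (S.filter (· < x)).card) {x | x ∉ P ∧ h x = 0}
      (↑(Finset.range (S.card + 1)) : Set ℕ) := by
    intro x _
    rw [Finset.mem_coe, Finset.mem_range]
    exact Nat.lt_succ_of_le (Finset.card_filter_le _ _)
  refine ⟨Set.Finite.of_injOn hmaps hinj (Finset.finite_toSet _), ?_⟩
  have h1 := Set.ncard_le_ncard_of_injOn _ hmaps hinj (Finset.finite_toSet _)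
  rw [Set.ncard_coe_finset, Finset.card_range] at h1
  have h2 : S.card ≤ P.card + G.card := Finset.card_union_le P G
  omega

theorem eval_pr_ne {s : Finset ℝ[X]} {x : ℝ} (h : (Pr s).eval x ≠ 0) {π : ℝ[X]} (hπ : π ∈ s) :
    π.eval x ≠ 0 := by
  rw [pr_eq s hπ, eval_mul] at h
  exact left_ne_zero_of_mul h

theorem co_eval {s : Finset ℝ[X]} {x : ℝ} (h : (Pr s).eval x ≠ 0) {π : ℝ[X]} (hπ : π ∈ s) :
    (co s π).eval x = (Pr s).eval x / π.eval x := by
  have h1 := eval_pr_ne h hπ
  rw [pr_eq s hπ, eval_mul]
  field_simp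

theorem pr_ne {s : Finset ℝ[X]} (hs : Good s) : Pr s ≠ 0 := by
  unfold Pr
  exact Finset.prod_ne_zero_iff.2 fun π hπ => (hs π hπ).2.ne_zero

/-- `∑ m_π log |π|` -/
noncomputable def lam (s : Finset ℝ[X]) (m : ℝ[X] → ℝ) (x : ℝ) : ℝ :=
  ∑ π ∈ s, m π * Real.log (π.eval x)

theorem deriv_lam (s : Finset ℝ[X]) (m : ℝ[X] → ℝ) (x : ℝ) (h : (Pr s).eval x ≠ 0) :
    HasDerivAt (lam s m) ((Sg s m).eval x / (Pr s).eval x) x := by
  have h1 : HasDerivAt (lam s m) (∑ π ∈ s, m π * ((derivative π).eval x / π.eval x)) x := by
    unfold lam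
    refine HasDerivAt.fun_sum fun π hπ => ?_
    exact ((π.hasDerivAt x).log (eval_pr_ne h hπ)).const_mul (m π)
  refine h1.congr_deriv ?_
  unfold Sg
  rw [eval_finsetSum, Finset.sum_div]
  refine Finset.sum_congr rfl fun π hπ => ?_
  rw [eval_mul, eval_mul, eval_C, co_eval h hπ]
  have := eval_pr_ne h hπ
  field_simp

/-- `A_0 + ∑ A_k λ_k` -/
noncomputable def lin (s : Finset ℝ[X]) {r : ℕ} (b : Fin r → ℝ[X] → ℝ) (A0 : ℝ[X])
    (A : Fin r → ℝ[X]) (x : ℝ) : ℝ :=
  A0.eval x + ∑ k, (A k).eval x * lam s (b k) x

def Z (w : ℕ) : ℕ → ℕ → ℕ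
  | 0, δ => δ
  | n + 1, δ => Z w n (2 * δ + w) + 2 * δ + w + 1

theorem le_Z (w n δ : ℕ) : δ ≤ Z w n δ := by
  rcases n with _ | n
  · exact le_rfl
  · unfold Z
    omega

theorem card_roots_le (A : ℝ[X]) : A.roots.toFinset.card ≤ A.natDegree :=
  (Multiset.toFinset_card_le _).trans (card_roots' A)

theorem sg_lin (s : Finset ℝ[X]) {r : ℕ} (b : Fin r → ℝ[X] → ℝ) (c : Fin r → ℝ) :
    ∑ k, C (c k) * Sg s (b k) = Sg s (fun π => ∑ k, c k * b k π) := by
  unfold Sg
  simp only [Finset.mul_sum]
  rw [Finset.sum_comm]
  refine Finset.sum_congr rfl fun π _ => ?_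
  rw [map_sum, Finset.sum_mul, Finset.sum_mul]
  refine Finset.sum_congr rfl fun k _ => ?_
  rw [C_mul]
  ring

theorem natDegree_sg_le (s : Finset ℝ[X]) (m : ℝ[X] → ℝ) : (Sg s m).natDegree ≤ (Pr s).natDegree := by
  unfold Sg
  refine natDegree_sum_le_of_forall_le _ _ fun π hπ => ?_
  by_cases h0 : co s π = 0
  · rw [h0, mul_zero, natDegree_zero]
    exact Nat.zero_le _
  by_cases hπ0 : π = 0
  · simp [hπ0]
  · rw [pr_eq s hπ, natDegree_mul hπ0 h0]
    refine natDegree_mul_le.trans (Nat.add_le_add_right ?_ _)
    refine (natDegree_C_mul_le _ _).trans ?_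
    exact (natDegree_derivative_le π).trans (Nat.sub_le _ _)

theorem fin_zeros {s : Finset ℝ[X]} (hs : Good s) {r : ℕ} (b : Fin r → ℝ[X] → ℝ)
    (hb : ∀ c : Fin r → ℝ, (∀ π ∈ s, ∑ k, c k * b k π = 0) → ∀ k, c k = 0) :
    ∀ (n δ : ℕ) (A0 : ℝ[X]) (A : Fin r → ℝ[X]),
    (open Classical in (Finset.univ.filter fun k => A k ≠ 0).card ≤ n) →
    A0.natDegree ≤ δ → (∀ k, (A k).natDegree ≤ δ) → (A0 ≠ 0 ∨ ∃ k, A k ≠ 0) →
    ∃ G : Finset ℝ, G.card ≤ Z (Pr s).natDegree n δ ∧
      ∀ x, (Pr s).eval x ≠ 0 → x ∉ G → lin s b A0 A x ≠ 0 := by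
  classical
  intro n
  induction n with
  | zero =>
    intro δ A0 A hn hd0 hd hne
    have hA : ∀ k, A k = 0 := by
      intro k
      by_contra hk
      have h1 : k ∈ Finset.univ.filter fun k => A k ≠ 0 := Finset.mem_filter.2 ⟨Finset.mem_univ _, hk⟩
      have h2 := Finset.card_pos.2 ⟨k, h1⟩
      omega
    have hA0 : A0 ≠ 0 := by
      rcases hne with h | ⟨k, h⟩
      · exact h
      · exact absurd (hA k) h
    refine ⟨A0.roots.toFinset, (card_roots_le A0).trans hd0, fun x _ hx h0 => hx ?_⟩
    rw [Multiset.mem_toFinset, mem_roots hA0]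
    unfold lin at h0
    rw [Finset.sum_eq_zero (fun k _ => by rw [hA k]; simp), add_zero] at h0
    exact h0
  | succ n ih =>
    intro δ A0 A hn hd0 hd hne
    by_cases hk : ∃ k, A k ≠ 0
    · obtain ⟨k, hk0⟩ := hk
      set B : Fin r → ℝ[X] := fun j => Pr s * (derivative (A j) * A k - A j * derivative (A k))
        with hB
      set B0 : ℝ[X] := Pr s * (derivative A0 * A k - A0 * derivative (A k)) +
        A k * ∑ j, A j * Sg s (b j) with hB0
      have hwr : ∀ P : ℝ[X], P.natDegree ≤ δ →
          (Pr s * (derivative P * A k - P * derivative (A k))).natDegree ≤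
            2 * δ + (Pr s).natDegree := by
        intro P hP
        refine natDegree_mul_le.trans ?_
        have h1 : (derivative P * A k - P * derivative (A k)).natDegree ≤ 2 * δ := by
          refine (natDegree_sub_le _ _).trans (max_le ?_ ?_)
          · refine natDegree_mul_le.trans ?_
            have h2 := natDegree_derivative_le P
            have h3 := hd k
            omega
          · refine natDegree_mul_le.trans ?_
            have h2 := natDegree_derivative_le (A k)
            have h3 := hd k
            omega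
        omega
      by_cases hall : B0 ≠ 0 ∨ ∃ j, B j ≠ 0
      · have hcard : (Finset.univ.filter fun j => B j ≠ 0).card ≤ n := by
          have h1 : (Finset.univ.filter fun j => B j ≠ 0).card <
              (Finset.univ.filter fun j => A j ≠ 0).card := by
            refine Finset.card_lt_card ?_
            rw [Finset.ssubset_iff_subset_ne]
            refine ⟨fun j hj => ?_, fun he => ?_⟩
            · rw [Finset.mem_filter] at hj ⊢
              refine ⟨hj.1, fun h0 => hj.2 ?_⟩
              simp [hB, h0]
            · have h1 : k ∈ Finset.univ.filter fun j => B j ≠ 0 := by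
                rw [he]
                exact Finset.mem_filter.2 ⟨Finset.mem_univ _, hk0⟩
              refine (Finset.mem_filter.1 h1).2 ?_
              simp only [hB]
              ring
          omega
        have hdB0 : B0.natDegree ≤ 2 * δ + (Pr s).natDegree := by
          rw [hB0]
          refine natDegree_add_le_of_degree_le (hwr A0 hd0) ?_
          refine natDegree_mul_le.trans ?_
          have h1 : (∑ j, A j * Sg s (b j)).natDegree ≤ δ + (Pr s).natDegree := by
            refine natDegree_sum_le_of_forall_le _ _ fun j _ => ?_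
            exact natDegree_mul_le.trans (Nat.add_le_add (hd j) (natDegree_sg_le s (b j)))
          have h2 := hd k
          omega
        obtain ⟨G1, hG1c, hG1⟩ := ih (2 * δ + (Pr s).natDegree) B0 B hcard hdB0
          (fun j => hwr (A j) (hd j)) hall
        set P : Finset ℝ := (A k).roots.toFinset ∪ (Pr s).roots.toFinset with hP
        have hout : ∀ x ∉ P, (A k).eval x ≠ 0 ∧ (Pr s).eval x ≠ 0 := by
          intro x hx
          simp only [hP, Finset.mem_union, not_or] at hx
          refine ⟨fun h0 => hx.1 ?_, fun h0 => hx.2 ?_⟩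
          · exact Multiset.mem_toFinset.2 ((mem_roots hk0).2 h0)
          · exact Multiset.mem_toFinset.2 ((mem_roots (pr_ne hs)).2 h0)
        obtain ⟨hfin, hcd⟩ := rolle_card P G1 (fun x => lin s b A0 A x / (A k).eval x)
          (fun x => lin s b B0 B x / ((Pr s).eval x * (A k).eval x ^ 2)) (by
            intro x hx
            obtain ⟨h1, h2⟩ := hout x hx
            have hsum : HasDerivAt (fun x => ∑ j, (A j).eval x * lam s (b j) x)
                (∑ j, ((derivative (A j)).eval x * lam s (b j) x +
                  (A j).eval x * ((Sg s (b j)).eval x / (Pr s).eval x))) x := by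
              refine HasDerivAt.fun_sum fun j _ => ?_
              exact ((A j).hasDerivAt x).mul (deriv_lam s (b j) x h2)
            have hlin : HasDerivAt (lin s b A0 A) ((derivative A0).eval x +
                ∑ j, ((derivative (A j)).eval x * lam s (b j) x +
                  (A j).eval x * ((Sg s (b j)).eval x / (Pr s).eval x))) x :=
              (A0.hasDerivAt x).add hsum
            have hq := hlin.div ((A k).hasDerivAt x) h1
            refine hq.congr_deriv ?_
            rw [div_eq_div_iff (pow_ne_zero 2 h1) (mul_ne_zero h2 (pow_ne_zero 2 h1))]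
            have e1 : lin s b B0 B x = (Pr s).eval x *
                (((derivative A0).eval x + ∑ j, ((derivative (A j)).eval x * lam s (b j) x +
                  (A j).eval x * ((Sg s (b j)).eval x / (Pr s).eval x))) * (A k).eval x -
                  lin s b A0 A x * (derivative (A k)).eval x) := by
              have e2 : ∑ j, (A j * Sg s (b j)).eval x =
                  (Pr s).eval x * ∑ j, (A j).eval x * ((Sg s (b j)).eval x / (Pr s).eval x) := by
                rw [Finset.mul_sum]
                refine Finset.sum_congr rfl fun j _ => ?_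
                rw [eval_mul]
                field_simp
              have e3 : ∑ j, (B j).eval x * lam s (b j) x = (Pr s).eval x *
                  ((∑ j, (derivative (A j)).eval x * lam s (b j) x) * (A k).eval x -
                  (∑ j, (A j).eval x * lam s (b j) x) * (derivative (A k)).eval x) := by
                rw [Finset.sum_mul, Finset.sum_mul, ← Finset.sum_sub_distrib, Finset.mul_sum]
                refine Finset.sum_congr rfl fun j _ => ?_
                simp only [hB, eval_mul, eval_sub]
                ring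
              unfold lin
              rw [e3, hB0, eval_add, eval_mul, eval_mul, eval_finsetSum, e2, eval_sub, eval_mul,
                eval_mul, Finset.sum_add_distrib]
              ring
            rw [e1]
            ring) (by
            intro x hx hxG
            obtain ⟨h1, h2⟩ := hout x hx
            exact div_ne_zero (hG1 x h2 hxG) (mul_ne_zero h2 (pow_ne_zero 2 h1)))
        refine ⟨(A k).roots.toFinset ∪ hfin.toFinset, ?_, fun x hx hxG h0 => ?_⟩
        · have h1 := Finset.card_union_le (A k).roots.toFinset hfin.toFinset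
          rw [Set.ncard_eq_toFinset_card _ hfin] at hcd
          have h2 := (card_roots_le (A k)).trans (hd k)
          have h3 := card_roots_le (Pr s)
          have h4 := Finset.card_union_le (A k).roots.toFinset (Pr s).roots.toFinset
          rw [← hP] at h4
          unfold Z
          omega
        · rw [Finset.mem_union, not_or] at hxG
          refine hxG.2 (hfin.mem_toFinset.2 ⟨?_, ?_⟩)
          · rw [hP, Finset.mem_union, not_or]
            refine ⟨hxG.1, fun h1 => hx ?_⟩
            exact (mem_roots (pr_ne hs)).1 (Multiset.mem_toFinset.1 h1)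
          · change lin s b A0 A x / (A k).eval x = 0
            rw [h0, zero_div]
      · exfalso
        rw [not_or, not_not] at hall
        obtain ⟨hb0, hb1⟩ := hall
        have hb' : ∀ j, derivative (A j) * A k = A j * derivative (A k) := by
          intro j
          by_contra hc
          refine hb1 ⟨j, ?_⟩
          simp only [hB]
          exact mul_ne_zero (pr_ne hs) (sub_ne_zero.2 hc)
        choose c hc using fun j => wr_prop (A j) (A k) hk0 (hb' j)
        have hck : c k = 1 := by
          have h1 := hc k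
          have h2 : (C (c k) - 1) * A k = 0 := by
            linear_combination -h1
          rcases mul_eq_zero.1 h2 with h3 | h3
          · have h4 : C (c k) = C (1 : ℝ) := by
              rw [C_1]
              exact sub_eq_zero.1 h3
            exact C_injective h4
          · exact absurd h3 hk0
        have h1 : (derivative A0 * A k - A0 * derivative (A k)) * Pr s =
            A k ^ 2 * Sg s (fun π => ∑ j, (-c j) * b j π) := by
          have h2 : ∑ j, A j * Sg s (b j) = - (A k * Sg s (fun π => ∑ j, (-c j) * b j π)) := by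
            rw [← sg_lin s b (fun j => -c j), Finset.mul_sum, ← Finset.sum_neg_distrib]
            refine Finset.sum_congr rfl fun j _ => ?_
            rw [hc j, C_neg]
            ring
          rw [hB0, h2] at hb0
          linear_combination hb0
        have h3 := hb (fun j => -c j) (fun π hπ => indep hs _ A0 (A k) hk0 h1 hπ) k
        simp only [hck] at h3
        norm_num at h3
    · have hA0 : A0 ≠ 0 := by
        rcases hne with h | h
        · exact h
        · exact absurd h hk
      push Not at hk
      refine ⟨A0.roots.toFinset, (card_roots_le A0).trans (hd0.trans (le_Z _ _ _)),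
        fun x _ hx h0 => hx ?_⟩
      rw [Multiset.mem_toFinset, mem_roots hA0]
      unfold lin at h0
      rw [Finset.sum_eq_zero (fun k _ => by rw [hk k]; simp), add_zero] at h0
      exact h0

theorem exists_basis {ι : Type} [Fintype ι] (s : Finset ℝ[X]) (v : ι → ℝ[X] → ℝ)
    (hv : ∀ i, ∀ π ∉ s, v i π = 0) : ∃ r ≤ Fintype.card ι, ∃ b : Fin r → ℝ[X] → ℝ,
      (∀ c : Fin r → ℝ, (∀ π ∈ s, ∑ k, c k * b k π = 0) → ∀ k, c k = 0) ∧
      ∃ a : ι → Fin r → ℝ, ∀ i π, v i π = ∑ k, a i k * b k π := by
  classical
  set W : Submodule ℝ (ℝ[X] → ℝ) := Submodule.span ℝ (Set.range v) with hW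
  have : Module.Finite ℝ W := Module.Finite.span_of_finite ℝ (Set.finite_range v)
  have hr : Module.finrank ℝ W ≤ Fintype.card ι := finrank_range_le_card v
  have hsupp : ∀ f ∈ W, ∀ π ∉ s, f π = 0 := by
    intro f hf π hπ
    induction hf using Submodule.span_induction with
    | mem x h =>
      obtain ⟨i, rfl⟩ := h
      exact hv i π hπ
    | zero => rfl
    | add x y _ _ hx hy => rw [Pi.add_apply, hx, hy, add_zero]
    | smul a x _ hx => rw [Pi.smul_apply, hx, smul_zero]
  set bas := Module.finBasis ℝ W
  refine ⟨Module.finrank ℝ W, hr, fun k => (bas k : ℝ[X] → ℝ), ?_,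
    fun i k => bas.repr ⟨v i, Submodule.subset_span ⟨i, rfl⟩⟩ k, ?_⟩
  · intro c hc k
    have h1 : ∑ k, c k • bas k = 0 := by
      apply Subtype.ext
      funext π
      have h2 : ((∑ k, c k • bas k : W) : ℝ[X] → ℝ) π = ∑ k, c k * (bas k : ℝ[X] → ℝ) π := by
        rw [Submodule.coe_sum, Finset.sum_apply]
        rfl
      rw [h2]
      by_cases hπ : π ∈ s
      · exact hc π hπ
      · refine Finset.sum_eq_zero fun k _ => ?_
        rw [hsupp _ (bas k).2 π hπ, mul_zero]
    exact Fintype.linearIndependent_iff.1 bas.linearIndependent c h1 k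
  · intro i π
    have h1 := bas.sum_repr ⟨v i, Submodule.subset_span ⟨i, rfl⟩⟩
    have h2 := congrArg (fun f : W => (f : ℝ[X] → ℝ) π) h1
    simp only at h2
    rw [← h2, Submodule.coe_sum, Finset.sum_apply]
    rfl

end Pool.Agent.V8H47.RC
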