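import Pool.Agent.V8H47.RC.B

set_option autoImplicit false

open Polynomial

namespace Pool.Agent.V8H47.RC

theorem iso4 {κ : Type} (p q r t : κ → ℝ)
    (h : ∀ o o', p o * t o' + t o * p o' - q o * r o' - r o * q o' = 0)
    (m : κ) (hp : p m ≠ 0) :
    (∀ o, r m * p o - p m * r o = 0 ∧ r m * q o - p m * t o = 0) ∨
    (∀ o, q m * p o - p m * q o = 0 ∧ q m * r o - p m * t o = 0) := by
  have hmm : p m * t m = q m * r m := by linarith [h m m]
  have hy : ∀ o, p m * (r m * q o - p m * t o) = q m * (r m * p o - p m * r o) := by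
    intro o
    linear_combination (-p m) * h m o + p o * hmm
  have hz : ∀ o, p m * (q m * r o - p m * t o) = r m * (q m * p o - p m * q o) := by
    intro o
    linear_combination (-p m) * h m o + p o * hmm
  have hc : ∀ o o', (r m * p o - p m * r o) * (q m * p o' - p m * q o') +
      (r m * p o' - p m * r o') * (q m * p o - p m * q o) = 0 := by
    intro o o'
    linear_combination (-(p m) ^ 2) * h o o' + p o * p m * h m o' + p o' * p m * h m o -
      2 * p o * p o' * hmm
  by_cases h0 : ∀ o, r m * p o - p m * r o = 0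
  · left
    intro o
    refine ⟨h0 o, ?_⟩
    have h1 := hy o
    rw [h0 o, mul_zero] at h1
    exact (mul_eq_zero.1 h1).resolve_left hp
  · right
    push Not at h0
    obtain ⟨o1, h1⟩ := h0
    have h2 : q m * p o1 - p m * q o1 = 0 := by
      have h3 := hc o1 o1
      have h4 : (r m * p o1 - p m * r o1) * (q m * p o1 - p m * q o1) = 0 := by linarith
      exact (mul_eq_zero.1 h4).resolve_left h1
    intro o
    have h3 : q m * p o - p m * q o = 0 := by
      have h4 := hc o1 o
      rw [h2, mul_zero, add_zero] at h4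
      exact (mul_eq_zero.1 h4).resolve_left h1
    refine ⟨h3, ?_⟩
    have h4 := hz o
    rw [h3, mul_zero] at h4
    exact (mul_eq_zero.1 h4).resolve_left hp

theorem iso {κ : Type} (N : κ → Fin 2 → Fin 2 → ℝ)
    (h : ∀ o o', N o 0 0 * N o' 1 1 + N o 1 1 * N o' 0 0 - N o 0 1 * N o' 1 0 -
      N o 1 0 * N o' 0 1 = 0)
    (m : κ) (z : Fin 2 → Fin 2 → ℤ) (hz : ∀ i j, N m i j = z i j) (hne : ∃ i j, z i j ≠ 0) :
    (∃ r t : ℤ, (r ≠ 0 ∨ t ≠ 0) ∧ ∀ o j, r * N o 0 j + t * N o 1 j = 0) ∨
    (∃ r t : ℤ, (r ≠ 0 ∨ t ≠ 0) ∧ ∀ o i, r * N o i 0 + t * N o i 1 = 0) := by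
  obtain ⟨i, j, hij⟩ := hne
  have hN : N m i j ≠ 0 := by
    rw [hz]
    exact_mod_cast hij
  fin_cases i <;> fin_cases j <;> simp only [Fin.zero_eta, Fin.mk_one, Fin.isValue] at hij hN
  · rcases iso4 (fun o => N o 0 0) (fun o => N o 0 1) (fun o => N o 1 0) (fun o => N o 1 1)
      (fun o o' => h o o') m hN with h1 | h1
    · refine Or.inl ⟨z 1 0, -z 0 0, Or.inr (neg_ne_zero.2 hij), fun o j => ?_⟩
      have h2 := h1 o
      simp only [hz] at h2
      fin_cases j
      · push_cast
        linarith [h2.1]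
      · push_cast
        linarith [h2.2]
    · refine Or.inr ⟨z 0 1, -z 0 0, Or.inr (neg_ne_zero.2 hij), fun o j => ?_⟩
      have h2 := h1 o
      simp only [hz] at h2
      fin_cases j
      · push_cast
        linarith [h2.1]
      · push_cast
        linarith [h2.2]
  · rcases iso4 (fun o => N o 0 1) (fun o => N o 0 0) (fun o => N o 1 1) (fun o => N o 1 0)
      (fun o o' => by linarith [h o o']) m hN with h1 | h1
    · refine Or.inl ⟨z 1 1, -z 0 1, Or.inr (neg_ne_zero.2 hij), fun o j => ?_⟩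
      have h2 := h1 o
      simp only [hz] at h2
      fin_cases j
      · push_cast
        linarith [h2.2]
      · push_cast
        linarith [h2.1]
    · refine Or.inr ⟨-z 0 1, z 0 0, Or.inl (neg_ne_zero.2 hij), fun o j => ?_⟩
      have h2 := h1 o
      simp only [hz] at h2
      fin_cases j
      · push_cast
        linarith [h2.1]
      · push_cast
        linarith [h2.2]
  · rcases iso4 (fun o => N o 1 0) (fun o => N o 1 1) (fun o => N o 0 0) (fun o => N o 0 1)
      (fun o o' => by linarith [h o o']) m hN with h1 | h1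
    · refine Or.inl ⟨-z 1 0, z 0 0, Or.inl (neg_ne_zero.2 hij), fun o j => ?_⟩
      have h2 := h1 o
      simp only [hz] at h2
      fin_cases j
      · push_cast
        linarith [h2.1]
      · push_cast
        linarith [h2.2]
    · refine Or.inr ⟨z 1 1, -z 1 0, Or.inr (neg_ne_zero.2 hij), fun o j => ?_⟩
      have h2 := h1 o
      simp only [hz] at h2
      fin_cases j
      · push_cast
        linarith [h2.2]
      · push_cast
        linarith [h2.1]
  · rcases iso4 (fun o => N o 1 1) (fun o => N o 1 0) (fun o => N o 0 1) (fun o => N o 0 0)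
      (fun o o' => by linarith [h o o']) m hN with h1 | h1
    · refine Or.inl ⟨-z 1 1, z 0 1, Or.inl (neg_ne_zero.2 hij), fun o j => ?_⟩
      have h2 := h1 o
      simp only [hz] at h2
      fin_cases j
      · push_cast
        linarith [h2.2]
      · push_cast
        linarith [h2.1]
    · refine Or.inr ⟨-z 1 1, z 1 0, Or.inl (neg_ne_zero.2 hij), fun o j => ?_⟩
      have h2 := h1 o
      simp only [hz] at h2
      fin_cases j
      · push_cast
        linarith [h2.2]
      · push_cast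
        linarith [h2.1]

theorem sg_comb (s : Finset ℝ[X]) (v1 v2 v3 v4 : ℝ[X] → ℝ) (α β γ δ x : ℝ) :
    (Sg s (fun π => v1 π * α + v2 π * β - v3 π * γ - v4 π * δ)).eval x =
      (Sg s v1).eval x * α + (Sg s v2).eval x * β - (Sg s v3).eval x * γ -
        (Sg s v4).eval x * δ := by
  unfold Sg
  simp only [eval_finsetSum, Finset.sum_mul, ← Finset.sum_add_distrib, ← Finset.sum_sub_distrib]
  refine Finset.sum_congr rfl fun π _ => ?_
  simp only [eval_mul, eval_C]
  ring

theorem lam_comb (s : Finset ℝ[X]) {r : ℕ} (b : Fin r → ℝ[X] → ℝ) (a : Fin r → ℝ)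
    (v : ℝ[X] → ℝ) (hv : ∀ π, v π = ∑ k, a k * b k π) (x : ℝ) :
    lam s v x = ∑ k, a k * lam s (b k) x := by
  unfold lam
  simp only [hv, Finset.mul_sum, Finset.sum_mul]
  rw [Finset.sum_comm]
  refine Finset.sum_congr rfl fun π _ => Finset.sum_congr rfl fun k _ => ?_
  ring

/-- `C_ij + ∑ M_π,ij log |π|` -/
noncomputable def Lg (s : Finset ℝ[X]) (Cc : Fin 2 → Fin 2 → ℝ) (M : ℝ[X] → Fin 2 → Fin 2 → ℤ)
    (x : ℝ) (i j : Fin 2) : ℝ := Cc i j + lam s (fun π => (M π i j : ℝ)) x

theorem core {s : Finset ℝ[X]} (hs : Good s) (Cc : Fin 2 → Fin 2 → ℝ)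
    (M : ℝ[X] → Fin 2 → Fin 2 → ℤ) (hM : ∀ π ∉ s, ∀ i j, M π i j = 0)
    (hne : ∃ π ∈ s, ∃ i j, M π i j ≠ 0) :
    (∃ r t : ℤ, (r ≠ 0 ∨ t ≠ 0) ∧ ∀ x j, r * Lg s Cc M x 0 j + t * Lg s Cc M x 1 j = 0) ∨
    (∃ r t : ℤ, (r ≠ 0 ∨ t ≠ 0) ∧ ∀ x i, r * Lg s Cc M x i 0 + t * Lg s Cc M x i 1 = 0) ∨
    ∃ G : Finset ℝ, G.card ≤ 88 * (Pr s).natDegree + 5 ∧ ∀ x, (Pr s).eval x ≠ 0 → x ∉ G →
      Lg s Cc M x 0 0 * Lg s Cc M x 1 1 - Lg s Cc M x 0 1 * Lg s Cc M x 1 0 ≠ 0 := by
  classical
  set v : Fin 2 × Fin 2 → ℝ[X] → ℝ := fun ij π => (M π ij.1 ij.2 : ℝ) with hv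
  obtain ⟨r, hr, b, hb, a, ha⟩ := exists_basis s v (fun ij π hπ => by
    simp only [hv, hM π hπ, Int.cast_zero])
  have hr4 : r ≤ 4 := hr.trans (by simp)
  set A0 : ℝ[X] := Sg s (fun π => v (0, 0) π * Cc 1 1 + v (1, 1) π * Cc 0 0 -
    v (0, 1) π * Cc 1 0 - v (1, 0) π * Cc 0 1) with hA0
  set A : Fin r → ℝ[X] := fun k => Sg s (fun π => v (0, 0) π * a (1, 1) k +
    v (1, 1) π * a (0, 0) k - v (0, 1) π * a (1, 0) k - v (1, 0) π * a (0, 1) k) with hA
  by_cases hall : A0 ≠ 0 ∨ ∃ k, A k ≠ 0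
  · right
    right
    obtain ⟨G1, hG1c, hG1⟩ := fin_zeros hs b hb 4 (Pr s).natDegree A0 A
      (((Finset.card_filter_le _ _).trans (by simp)).trans hr4) (natDegree_sg_le _ _)
      (fun k => natDegree_sg_le _ _) hall
    have hPe : ∀ x, x ∉ (Pr s).roots.toFinset → (Pr s).eval x ≠ 0 := by
      intro x hx h0
      exact hx (Multiset.mem_toFinset.2 ((mem_roots (pr_ne hs)).2 h0))
    obtain ⟨hfin, hcd⟩ := rolle_card (Pr s).roots.toFinset G1
      (fun x => Lg s Cc M x 0 0 * Lg s Cc M x 1 1 - Lg s Cc M x 0 1 * Lg s Cc M x 1 0)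
      (fun x => lin s b A0 A x / (Pr s).eval x) (by
        intro x hx
        have h2 := hPe x hx
        have hL : ∀ i j, HasDerivAt (fun x => Lg s Cc M x i j)
            ((Sg s (v (i, j))).eval x / (Pr s).eval x) x := by
          intro i j
          unfold Lg
          exact (deriv_lam s (v (i, j)) x h2).const_add _
        have hD := ((hL 0 0).mul (hL 1 1)).sub ((hL 0 1).mul (hL 1 0))
        refine hD.congr_deriv ?_
        have hLe : ∀ i j, Lg s Cc M x i j = Cc i j + ∑ k, a (i, j) k * lam s (b k) x := by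
          intro i j
          unfold Lg
          rw [← lam_comb s b (a (i, j)) (v (i, j)) (ha (i, j)) x]
        have e1 : lin s b A0 A x = (Sg s (v (0, 0))).eval x * Lg s Cc M x 1 1 +
            (Sg s (v (1, 1))).eval x * Lg s Cc M x 0 0 -
            (Sg s (v (0, 1))).eval x * Lg s Cc M x 1 0 -
            (Sg s (v (1, 0))).eval x * Lg s Cc M x 0 1 := by
          unfold lin
          rw [hA0, sg_comb, hLe 1 1, hLe 0 0, hLe 1 0, hLe 0 1]
          have e2 : ∑ k, (A k).eval x * lam s (b k) x =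
              (Sg s (v (0, 0))).eval x * (∑ k, a (1, 1) k * lam s (b k) x) +
              (Sg s (v (1, 1))).eval x * (∑ k, a (0, 0) k * lam s (b k) x) -
              (Sg s (v (0, 1))).eval x * (∑ k, a (1, 0) k * lam s (b k) x) -
              (Sg s (v (1, 0))).eval x * (∑ k, a (0, 1) k * lam s (b k) x) := by
            simp only [Finset.mul_sum, ← Finset.sum_add_distrib, ← Finset.sum_sub_distrib]
            refine Finset.sum_congr rfl fun k _ => ?_
            rw [hA]
            simp only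
            rw [sg_comb]
            ring
          rw [e2]
          ring
        rw [e1]
        field_simp
        ring) (by
        intro x hx hxG
        exact div_ne_zero (hG1 x (hPe x hx) hxG) (hPe x hx))
    refine ⟨hfin.toFinset, ?_, fun x hx hxG h0 => hxG ?_⟩
    · rw [Set.ncard_eq_toFinset_card _ hfin] at hcd
      have h3 := card_roots_le (Pr s)
      have h4 : Z (Pr s).natDegree 4 (Pr s).natDegree = 87 * (Pr s).natDegree + 4 := by
        simp only [Z]
        ring
      omega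
    · refine hfin.mem_toFinset.2 ⟨fun h1 => hx ?_, h0⟩
      exact (mem_roots (pr_ne hs)).1 (Multiset.mem_toFinset.1 h1)
  · rw [not_or, not_not] at hall
    obtain ⟨h0, h1⟩ := hall
    push Not at h1
    have c0 : ∀ π ∈ s, v (0, 0) π * Cc 1 1 + v (1, 1) π * Cc 0 0 -
        v (0, 1) π * Cc 1 0 - v (1, 0) π * Cc 0 1 = 0 := fun π hπ =>
      sg_dvd hs _ hπ (by rw [← hA0, h0]; exact dvd_zero _)
    have ck : ∀ k, ∀ π ∈ s, v (0, 0) π * a (1, 1) k + v (1, 1) π * a (0, 0) k -
        v (0, 1) π * a (1, 0) k - v (1, 0) π * a (0, 1) k = 0 := fun k π hπ =>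
      sg_dvd hs _ hπ (by
        have h2 := h1 k
        simp only [hA] at h2
        rw [h2]
        exact dvd_zero _)
    have cc : ∀ π ∈ s, ∀ ρ, v (0, 0) π * v (1, 1) ρ + v (1, 1) π * v (0, 0) ρ -
        v (0, 1) π * v (1, 0) ρ - v (1, 0) π * v (0, 1) ρ = 0 := by
      intro π hπ ρ
      rw [ha (1, 1) ρ, ha (0, 0) ρ, ha (1, 0) ρ, ha (0, 1) ρ]
      simp only [Finset.mul_sum, ← Finset.sum_add_distrib, ← Finset.sum_sub_distrib]
      refine Finset.sum_eq_zero fun k _ => ?_
      linear_combination (b k ρ) * ck k π hπ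
    by_cases hdet : Cc 0 0 * Cc 1 1 - Cc 0 1 * Cc 1 0 = 0
    · set N : Option {π // π ∈ s} → Fin 2 → Fin 2 → ℝ := fun o i j =>
        match o with
        | none => Cc i j
        | some π => (M π.1 i j : ℝ) with hN
      obtain ⟨π, hπ, hMπ⟩ := hne
      have hiso : ∀ o o', N o 0 0 * N o' 1 1 + N o 1 1 * N o' 0 0 - N o 0 1 * N o' 1 0 -
          N o 1 0 * N o' 0 1 = 0 := by
        intro o o'
        rcases o with _ | o <;> rcases o' with _ | o'
        · simp only [hN]
          linarith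
        · simp only [hN]
          have := c0 o'.1 o'.2
          simp only [hv] at this
          linarith
        · simp only [hN]
          have := c0 o.1 o.2
          simp only [hv] at this
          linarith
        · simp only [hN]
          have := cc o.1 o.2 o'.1
          simp only [hv] at this
          linarith
      have hexp : ∀ (x : ℝ) (r t : ℤ) (i j i' j' : Fin 2),
          (∀ o, (r : ℝ) * N o i j + t * N o i' j' = 0) →
          (r : ℝ) * Lg s Cc M x i j + t * Lg s Cc M x i' j' = 0 := by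
        intro x r t i j i' j' h2
        unfold Lg lam
        have h3 := h2 none
        simp only [hN] at h3
        have h4 : (r : ℝ) * (∑ π ∈ s, (M π i j : ℝ) * Real.log (π.eval x)) +
            t * (∑ π ∈ s, (M π i' j' : ℝ) * Real.log (π.eval x)) = 0 := by
          rw [Finset.mul_sum, Finset.mul_sum, ← Finset.sum_add_distrib]
          refine Finset.sum_eq_zero fun π hπ => ?_
          have h5 := h2 (some ⟨π, hπ⟩)
          simp only [hN] at h5
          linear_combination (Real.log (π.eval x)) * h5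
        linear_combination h3 + h4
      rcases iso N hiso (some ⟨π, hπ⟩) (M π) (fun i j => rfl) hMπ with
        ⟨r, t, hrt, h2⟩ | ⟨r, t, hrt, h2⟩
      · exact Or.inl ⟨r, t, hrt, fun x j => hexp x r t 0 j 1 j fun o => h2 o j⟩
      · exact Or.inr (Or.inl ⟨r, t, hrt, fun x i => hexp x r t i 0 i 1 fun o => h2 o i⟩)
    · right
      right
      refine ⟨∅, by simp, fun x _ _ hx => hdet ?_⟩
      have hm : ∑ π ∈ s, Real.log (π.eval x) * (v (0, 0) π * Cc 1 1 + v (1, 1) π * Cc 0 0 -
        v (0, 1) π * Cc 1 0 - v (1, 0) π * Cc 0 1) = 0 :=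
        Finset.sum_eq_zero fun π hπ => by rw [c0 π hπ, mul_zero]
      have hm2 : ∑ π ∈ s, ∑ ρ ∈ s, Real.log (π.eval x) * Real.log (ρ.eval x) *
        (v (0, 0) π * v (1, 1) ρ + v (1, 1) π * v (0, 0) ρ -
        v (0, 1) π * v (1, 0) ρ - v (1, 0) π * v (0, 1) ρ) = 0 :=
        Finset.sum_eq_zero fun π hπ => Finset.sum_eq_zero fun ρ _ => by
          rw [cc π hπ ρ, mul_zero]
      have e1 : ∑ π ∈ s, Real.log (π.eval x) * (v (0, 0) π * Cc 1 1 + v (1, 1) π * Cc 0 0 -
          v (0, 1) π * Cc 1 0 - v (1, 0) π * Cc 0 1) =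
          lam s (v (0, 0)) x * Cc 1 1 + lam s (v (1, 1)) x * Cc 0 0 -
          lam s (v (0, 1)) x * Cc 1 0 - lam s (v (1, 0)) x * Cc 0 1 := by
        unfold lam
        simp only [Finset.sum_mul, ← Finset.sum_add_distrib, ← Finset.sum_sub_distrib]
        refine Finset.sum_congr rfl fun π _ => ?_
        ring
      have e2 : ∑ π ∈ s, ∑ ρ ∈ s, Real.log (π.eval x) * Real.log (ρ.eval x) *
          (v (0, 0) π * v (1, 1) ρ + v (1, 1) π * v (0, 0) ρ -
          v (0, 1) π * v (1, 0) ρ - v (1, 0) π * v (0, 1) ρ) =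
          lam s (v (0, 0)) x * lam s (v (1, 1)) x + lam s (v (1, 1)) x * lam s (v (0, 0)) x -
          lam s (v (0, 1)) x * lam s (v (1, 0)) x - lam s (v (1, 0)) x * lam s (v (0, 1)) x := by
        unfold lam
        simp only [Finset.sum_mul_sum, ← Finset.sum_add_distrib, ← Finset.sum_sub_distrib]
        refine Finset.sum_congr rfl fun π _ => Finset.sum_congr rfl fun ρ _ => ?_
        ring
      rw [e1] at hm
      rw [e2] at hm2
      unfold Lg at hx
      change (Cc 0 0 + lam s (v (0, 0)) x) * (Cc 1 1 + lam s (v (1, 1)) x) -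
        (Cc 0 1 + lam s (v (0, 1)) x) * (Cc 1 0 + lam s (v (1, 0)) x) = 0 at hx
      linear_combination hx - hm - (1 / 2) * hm2

end Pool.Agent.V8H47.RC
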